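import Pool.Agent.SelfCover.Main

set_option autoImplicit false

/-!
# A finitely presented group which is the fundamental group of no self-covering closed manifold

Problem MP_16d5f9_gt, negative answer, in terms of covering spaces and homeomorphisms.
-/

namespace Pool.Agent.Results.MP_16d5f9_gt.NoSelfCover

/-- The group `Γ` has a finite presentation. -/
def FinitelyPresented (Γ : Type) [Group Γ] : Prop :=
  ∃ (k : ℕ) (φ : FreeGroup (Fin k) →* Γ) (R : Finset (FreeGroup (Fin k))),
    Function.Surjective φ ∧ φ.ker = Subgroup.normalClosure (R : Set (FreeGroup (Fin k)))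

/-- `M` is a connected closed topological manifold (compact Hausdorff space locally homeomorphic to
some Euclidean space). -/
structure ClosedManifold (M : Type) [TopologicalSpace M] : Prop where
  /-- every point has an open neighbourhood homeomorphic to an open set of the `n`-dimensional
  Euclidean space -/
  chart : ∃ n : ℕ, ∀ x : M, ∃ φ : OpenPartialHomeomorph M (EuclideanSpace ℝ (Fin n)), x ∈ φ.source
  compact : CompactSpace M
  hausdorff : T2Space M
  connected : ConnectedSpace M

/-- `p : M' → M` is the connected covering space of `M` corresponding to the subgroup `Γ'` of `Γ`,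
where the fundamental group of `M` with base point `p x'` is identified with `Γ` by `e`. -/
structure CoverOf {Γ : Type} [Group Γ] (Γ' : Subgroup Γ) {M M' : Type} [TopologicalSpace M]
    [TopologicalSpace M'] (p : C(M', M)) (x' : M') (e : FundamentalGroup M (p x') ≃* Γ) :
    Prop where
  connected : ConnectedSpace M'
  covering : IsCoveringMap p
  image : ∀ g : Γ, g ∈ Γ' ↔ ∃ w : FundamentalGroup M' x', e (FundamentalGroup.map p x' w) = g

private theorem range_comp {M M' : Type} [TopologicalSpace M] [TopologicalSpace M']
    (p : C(M', M)) (h : M ≃ₜ M') (x : M) :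
    (FundamentalGroup.map (p.comp ⟨h, h.continuous⟩) x).range =
      (FundamentalGroup.map p (h x)).range := by
  ext γ
  constructor
  · rintro ⟨w, rfl⟩
    refine ⟨FundamentalGroup.map ⟨h, h.continuous⟩ x w, ?_⟩
    induction w using Quotient.inductionOn with
    | _ w => rfl
  · rintro ⟨w, rfl⟩
    induction w using Quotient.inductionOn with
    | _ w =>
      have h1 : h.symm (h x) = x := h.symm_apply_apply x
      have key : ((w.map h.symm.continuous).cast h1.symm h1.symm).map h.continuous = w := by
        ext t
        exact h.apply_symm_apply (w t)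
      refine ⟨Quotient.mk _ ((w.map h.symm.continuous).cast h1.symm h1.symm), ?_⟩
      show FundamentalGroup.map p (h x) (Quotient.mk _
        (((w.map h.symm.continuous).cast h1.symm h1.symm).map h.continuous)) =
          FundamentalGroup.map p (h x) (Quotient.mk _ w)
      rw [key]

/-- **Negative answer.**  There are a finitely presented group `Γ` and a subgroup `Γ'`, isomorphic
to `Γ`, of finite index greater than one, such that no connected closed topological manifold `M`
with fundamental group `Γ` is homeomorphic to its covering space corresponding to `Γ'`. -/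
theorem result :
    ∃ (Γ : Type) (_ : Group Γ) (Γ' : Subgroup Γ),
      FinitelyPresented Γ ∧ Nonempty (Γ ≃* Γ') ∧ Γ'.index ≠ 0 ∧ 1 < Γ'.index ∧
      ∀ (M M' : Type) [TopologicalSpace M] [TopologicalSpace M'] (p : C(M', M)) (x' : M')
        (e : FundamentalGroup M (p x') ≃* Γ),
        ClosedManifold M → CoverOf Γ' p x' e → IsEmpty (M ≃ₜ M') := by
  refine ⟨SelfCover.Gam, inferInstance, SelfCover.GamP, SelfCover.gam_fp, SelfCover.gamP_iso,
    SelfCover.gamP_index_ne_zero, SelfCover.gamP_index, ?_⟩
  intro M M' _ _ p x' e hM hc
  refine ⟨fun h => ?_⟩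
  obtain ⟨n, hchart⟩ := hM.chart
  choose φ hφ using hchart
  let _ : ChartedSpace (EuclideanSpace ℝ (Fin n)) M :=
    { atlas := Set.range φ
      chartAt := φ
      mem_chart_source := hφ
      chart_mem_atlas := fun x => ⟨x, rfl⟩ }
  have hComp := hM.compact
  have hT2 := hM.hausdorff
  have hConn := hM.connected
  have hsc : SecondCountableTopology M :=
    ChartedSpace.secondCountable_of_sigmaCompact (EuclideanSpace ℝ (Fin n)) M
  have hmet : TopologicalSpace.MetrizableSpace M :=
    TopologicalSpace.metrizableSpace_of_t3_secondCountable M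
  have hlpc : LocallyPathConnectedSpace M :=
    ChartedSpace.locallyPathConnectedSpace (EuclideanSpace ℝ (Fin n)) M
  have hpc : PathConnectedSpace M := pathConnectedSpace_iff_connectedSpace.2 hConn
  let _ : MetricSpace M := TopologicalSpace.metrizableSpaceMetric M
  obtain ⟨x, rfl⟩ := h.surjective x'
  refine SelfCover.no_manifold n M (p.comp ⟨h, h.continuous⟩) (hc.covering.comp_homeomorph h) x e ?_
  rw [range_comp]
  ext g
  rw [hc.image g]
  constructor
  · rintro ⟨_, ⟨w, rfl⟩, rfl⟩
    exact ⟨w, rfl⟩
  · rintro ⟨w, rfl⟩
    exact ⟨_, ⟨w, rfl⟩, rfl⟩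

end Pool.Agent.Results.MP_16d5f9_gt.NoSelfCover
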